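import Pool.Agent.X160.Tr.Fin

set_option autoImplicit false

/-!
# MP_ac5134: the Kakeya inequality in tube form, for all exponents, for boxes in the planes of an
`(n-2)`-parameter family of `2`-planes of bounded overlap

Let `n = m + 2 ≥ 3` and write the points of `ℝ^n` as `x = ((z, y), t)`, `z ∈ ℝ^m`, `y, t ∈ ℝ`, with
the Euclidean norm.  Let `P` be the paraboloid `{(ω, |ω|²)}`, `ω ∈ ℝ^(m+1)`, `|ω| ≤ 1`.  The box dual
to the cap at `ω` is `box N (nor ω) f 0`: its long side `N²` is in the direction of the unit normal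
`nor ω = (-2ω, 1)/√(1+4|ω|²)`, its other sides `N` are in the directions of an arbitrary orthonormal
frame `f` of the orthogonal complement.

An `(n-2)`-parameter family of `2`-planes is given by three maps `α, β, γ` on a set `S ⊆ ℝ^m`; its
planes, blown up by `N²`, are

  `Π_s = {((z, y), t) : z = N² α(s) + t β(s) + y γ(s)}`,  `s ∈ S`.

The family has overlap at most `M` if almost every point lies on at most `M` of its planes.  The maps
are Lipschitz on `S` with any constants, on which the estimate does not depend, and the family may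
degenerate in any way; or they are polynomials of degree at most `k` on a bounded set `S`, and then
no hypothesis on the overlap is needed.

The box with normal at `ω` and centre `a = ((Z, Y), T)` is carried by the family up to `K N` for a
proportion `θ` if the points `w` of `ℝ^(m+1)` at distance `< r = σ/(4N)` of `ω` such that the normal
at `w` is parallel to a plane `Π_s` with `|N² α(s) + T β(s) + Y γ(s) - Z| ≤ K N` form a set of
measure at least `θ |B(ω, r)|`.  If all the boxes are carried by the family, then the conjectured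
comparison with the centred family holds, for every `p` in `[1, ∞]`, with the constant
`C (1 + M) θ⁻¹ (1 + K + A)^(4m) N^ε`.  A plane may carry arbitrarily many of the boxes, and their
positions within the planes are arbitrary.
-/

open MeasureTheory Set Metric
open scoped ENNReal NNReal

namespace Pool.Agent.Results.MP_ac5134_an.PlaneTranslates

/-- Euclidean space `ℝ^m`. -/
abbrev Vec (m : ℕ) : Type := EuclideanSpace ℝ (Fin m)

/-- The space `ℝ^(m+1)`, with its Euclidean norm. -/
abbrev Base (m : ℕ) : Type := WithLp 2 (Vec m × ℝ)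

/-- Euclidean space `ℝ^n`, `n = m + 2`, with the points `x = ((z, y), t)`: `x.fst.fst = z`,
`x.fst.snd = y` and `x.snd = t`. -/
abbrev Space (m : ℕ) : Type := WithLp 2 (Base m × ℝ)

variable {m : ℕ}

/-- The unit vector `(v, 1)/√(1+|v|²)`. -/
noncomputable def dir (v : Base m) : Space m :=
  (√(1 + ‖v‖ ^ 2))⁻¹ • WithLp.toLp 2 (v, (1:ℝ))

/-- The unit normal `(-2ω, 1)/√(1+4|ω|²)` of the paraboloid at the point `(ω, |ω|²)`. -/
noncomputable def nor (ω : Base m) : Space m := dir (-(2 : ℝ) • ω)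

/-- The box with centre `a`, side `N²` in the direction `u` and sides `N` in the directions `f j`. -/
def box (N : ℝ) (u : Space m) (f : Fin (m + 1) → Space m) (a : Space m) : Set (Space m) :=
  {y | |inner ℝ u (y - a)| ≤ N ^ 2 / 2 ∧ ∀ j, |inner ℝ (f j) (y - a)| ≤ N / 2}

/-- The caps have centres `ω i` in the closed unit ball of `ℝ^(m+1)`, `σ/N`-separated and at least
`κ N^(m+1)` in number, and `f i` is an orthonormal frame of the orthogonal complement of the normal
at `ω i`. -/
def Caps {ι : Type} [Fintype ι] (σ κ N : ℝ) (ω : ι → Base m) (f : ι → Fin (m + 1) → Space m) :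
    Prop :=
  (∀ i, ‖ω i‖ ≤ 1) ∧ (∀ i j, i ≠ j → σ / N ≤ ‖ω i - ω j‖) ∧
    κ * N ^ (m + 1) ≤ (Fintype.card ι : ℝ) ∧
    ∀ i, Orthonormal ℝ (Fin.cons (nor (ω i)) (f i) : Fin (m + 2) → Space m)

/-- The sum of the indicators of the boxes of the caps, with centres `a i`. -/
noncomputable def boxSum {ι : Type} [Fintype ι] (N : ℝ) (ω : ι → Base m)
    (f : ι → Fin (m + 1) → Space m) (a : ι → Space m) (y : Space m) : ℝ :=
  ∑ i, (box N (nor (ω i)) (f i) (a i)).indicator (fun _ => (1 : ℝ)) y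

/-- The inequality of Q1 with constant `C`, for all exponents, for the boxes with centres `a i`. -/
def Ineq {ι : Type} [Fintype ι] (C N : ℝ) (ω : ι → Base m) (f : ι → Fin (m + 1) → Space m)
    (a : ι → Space m) : Prop :=
  ∀ p : ℝ≥0∞, 1 ≤ p → eLpNorm (boxSum N ω f a) p volume ≤
    ENNReal.ofReal C * eLpNorm (boxSum N ω f 0) p volume

/-- The maps `α, β, γ` are Lipschitz on the measurable set `S`. -/
def LipschitzFamily (S : Set (Vec m)) (α β γ : Vec m → Vec m) : Prop :=
  MeasurableSet S ∧ ∃ L : ℝ≥0, LipschitzOnWith L α S ∧ LipschitzOnWith L β S ∧ LipschitzOnWith L γ S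

/-- For almost every `p = (t, y)`, almost every point `((z, y), t)` lies on at most `M` of the
planes `z = α(s) + t β(s) + y γ(s)`, `s ∈ S`. -/
def OverlapLE (M : ℕ) (S : Set (Vec m)) (α β γ : Vec m → Vec m) : Prop :=
  ∀ᵐ p : ℝ × ℝ, ∀ᵐ z : Vec m, {s | s ∈ S ∧ α s + p.1 • β s + p.2 • γ s = z}.encard ≤ M

/-- The box with normal at `ω` and centre `a` is carried by the family, blown up by `N²`, up to
`K N`, for a proportion at least `θ` of the points `w` at distance `< r` of `ω`: the normal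
`(-2w, 1)/√(1+4|w|²)` is parallel to a plane `Π_s` that passes at distance `≤ K N` of `a`, measured
in the direction of `z`. -/
def Carried (θ r K N : ℝ) (S : Set (Vec m)) (α β γ : Vec m → Vec m) (ω : Base m)
    (a : Space m) : Prop :=
  ENNReal.ofReal θ * volume (ball ω r) ≤ volume {w : Base m | ‖w - ω‖ < r ∧
    ∃ s ∈ S, -(2 : ℝ) • w.fst = β s - (2 * w.snd) • γ s ∧
      ‖N ^ 2 • α s + a.snd • β s + a.fst.snd • γ s - a.fst.fst‖ ≤ K * N}

/-- The polynomial map with components `P`. -/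
noncomputable def polyMap (P : Fin m → MvPolynomial (Fin m) ℝ) (s : Vec m) : Vec m :=
  WithLp.toLp 2 (fun j => MvPolynomial.eval (fun i => s i) (P j))

/-- **The Kakeya inequality in tube form in `ℝ^n`, `n = m + 2`, for all `p` in `[1, ∞]`, for boxes
carried by an `(n-2)`-parameter family of `2`-planes:**

1. for Lipschitz families of overlap at most `M`;
2. for all families given by polynomials of degree at most `k` on a bounded set of parameters. -/
theorem result (m : ℕ) (hm : 1 ≤ m) (ε σ κ : ℝ) (hε : 0 < ε) (hσ : 0 < σ) (hσ1 : σ ≤ 1)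
    (hκ : 0 < κ) :
    (∃ C : ℝ, 0 < C ∧ ∀ (M : ℕ) (A K θ : ℝ) (S : Set (Vec m)) (α β γ : Vec m → Vec m), 0 ≤ A →
      0 ≤ K → 0 < θ → LipschitzFamily S α β γ → (∀ s ∈ S, ‖γ s‖ ≤ A) → OverlapLE M S α β γ →
      ∀ N : ℝ, 1 ≤ N → ∀ (ι : Type) [Fintype ι] (ω : ι → Base m)
        (f : ι → Fin (m + 1) → Space m) (a : ι → Space m), Caps σ κ N ω f →
      (∀ i, Carried θ (σ / (4 * N)) K N S α β γ (ω i) (a i)) →
      Ineq (C * ((1 + M) * θ⁻¹ * (1 + K + A) ^ (4 * m)) * N ^ ε) N ω f a) ∧
    (∀ k : ℕ, ∃ C : ℝ, 0 < C ∧ ∀ (A K θ : ℝ) (S : Set (Vec m))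
      (P Q R : Fin m → MvPolynomial (Fin m) ℝ), 0 ≤ A → 0 ≤ K → 0 < θ → MeasurableSet S →
      Bornology.IsBounded S → (∀ j, (P j).totalDegree ≤ k ∧ (Q j).totalDegree ≤ k ∧
        (R j).totalDegree ≤ k) → (∀ s ∈ S, ‖polyMap R s‖ ≤ A) →
      ∀ N : ℝ, 1 ≤ N → ∀ (ι : Type) [Fintype ι] (ω : ι → Base m)
        (f : ι → Fin (m + 1) → Space m) (a : ι → Space m), Caps σ κ N ω f →
      (∀ i, Carried θ (σ / (4 * N)) K N S (polyMap P) (polyMap Q) (polyMap R) (ω i) (a i)) →
      Ineq (C * (θ⁻¹ * (1 + K + A) ^ (4 * m)) * N ^ ε) N ω f a) := by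
  obtain ⟨C, hC0, hC⟩ := Pool.Agent.X160.Tr.plane_boxes hm hε hσ hσ1 hκ
  have main : ∀ (M : ℕ) (A K θ : ℝ) (S : Set (Vec m)) (α β γ : Vec m → Vec m), 0 ≤ A →
      0 ≤ K → 0 < θ → LipschitzFamily S α β γ → (∀ s ∈ S, ‖γ s‖ ≤ A) → OverlapLE M S α β γ →
      ∀ N : ℝ, 1 ≤ N → ∀ (ι : Type) [Fintype ι] (ω : ι → Base m)
        (f : ι → Fin (m + 1) → Space m) (a : ι → Space m), Caps σ κ N ω f →
      (∀ i, Carried θ (σ / (4 * N)) K N S α β γ (ω i) (a i)) →
      Ineq (C * ((1 + M) * θ⁻¹ * (1 + K + A) ^ (4 * m)) * N ^ ε) N ω f a := by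
    intro M A K θ S α β γ hA hK hθ hF hγA hO N hN ι _ ω f a hcaps hc p hp
    have hO' : Pool.Agent.X160.Pf.OverlapLE M univ S α β γ := by
      filter_upwards [hO] with p hp _
      exact hp
    exact hC M A K θ S α β γ hA hK hθ hF.1 hF.2 hγA hO' N hN ι ω f a hcaps hc p hp
  refine ⟨⟨C, hC0, main⟩, ?_⟩
  intro k
  set M : ℕ := ((k * m + 1) ^ m) ^ m with hM
  refine ⟨C * (1 + M), by positivity, ?_⟩
  intro A K θ S P Q R hA hK hθ hS hSb hdeg hγA N hN ι _ ω f a hcaps hc
  have h1 := main M A K θ S (polyMap P) (polyMap Q) (polyMap R) hA hK hθ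
    ⟨hS, Pool.Agent.X160.Pf.poly_lip hSb P Q R⟩ hγA
    (by
      have h2 := Pool.Agent.X160.Pf.poly_overlap hm S P Q R (fun j => (hdeg j).1)
        (fun j => (hdeg j).2.1) (fun j => (hdeg j).2.2)
      unfold Pool.Agent.X160.Pf.OverlapLE at h2
      filter_upwards [h2] with p hp
      exact hp (mem_univ _)) N hN ι ω f a hcaps hc
  have e : C * ((1 + M) * θ⁻¹ * (1 + K + A) ^ (4 * m)) * N ^ ε =
      C * (1 + M) * (θ⁻¹ * (1 + K + A) ^ (4 * m)) * N ^ ε := by ring
  rw [e] at h1
  exact h1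

end Pool.Agent.Results.MP_ac5134_an.PlaneTranslates
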