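import Pool.Agent.X160.Tr.Smooth

set_option autoImplicit false

/-!
# MP_ac5134: the Kakeya inequality in tube form, for all exponents, for boxes in the planes of a
smooth `(n-2)`-parameter family of `2`-planes (no hypothesis on the overlap)

Let `n = m + 2 ≥ 3` and write the points of `ℝ^n` as `x = ((z, y), t)`, `z ∈ ℝ^m`, `y, t ∈ ℝ`, with
the Euclidean norm.  Let `P` be the paraboloid `{(ω, |ω|²)}`, `ω ∈ ℝ^(m+1)`, `|ω| ≤ 1`.  The box dual
to the cap at `ω` is `box N (nor ω) f 0`: its long side `N²` is in the direction of the unit normal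
`nor ω = (-2ω, 1)/√(1+4|ω|²)`, its other sides `N` are in the directions of an arbitrary orthonormal
frame `f` of the orthogonal complement.

An `(n-2)`-parameter family of `2`-planes is given by three maps `α, β, γ : ℝ^m → ℝ^m` and a set `S`
of parameters in the unit ball; its planes, blown up by `N²`, are

  `Π_s = {((z, y), t) : z = N² α(s) + t β(s) + y γ(s)}`,  `s ∈ S`.

Here `α, β, γ` are of class `C^(k+1)`, `k ≥ 1`, with derivatives of order at most `k + 1` bounded by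
`A` on the unit ball.  Nothing else is assumed on the family.

The box with normal at `ω` and centre `a = ((Z, Y), T)`, `|T|, |Y| ≤ Λ N²`, is carried by the family
up to `K N` for a proportion `θ` if the points `w` of `ℝ^(m+1)` at distance `< r = σ/(4N)` of `ω`
such that the normal at `w` is parallel to a plane `Π_s` with `|N² α(s) + T β(s) + Y γ(s) - Z| ≤ K N`
form a set of measure at least `θ |B(ω, r)|`.  If all the boxes are carried by the family, then the
conjectured comparison with the centred family holds, for every `p` in `[1, ∞]`, with the constant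
`C θ^(-(1/(n-1)+m/k)) (1 + K + A + Λ)^(4m+m²) N^(ε + m²/k)`, and for families of class `C^∞` with a
constant `C N^ε` for every `ε > 0`.  A plane may carry arbitrarily many of the boxes, and their
positions within the planes are arbitrary.
-/

open MeasureTheory Set Metric
open scoped ENNReal NNReal

namespace Pool.Agent.Results.MP_ac5134_an.SmoothPlaneTranslates

/-- Euclidean space `ℝ^m`. -/
abbrev Vec (m : ℕ) : Type := EuclideanSpace ℝ (Fin m)

/-- The space `ℝ^(m+1)`, with its Euclidean norm. -/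
abbrev Base (m : ℕ) : Type := WithLp 2 (Vec m × ℝ)

/-- Euclidean space `ℝ^n`, `n = m + 2`, with the points `x = ((z, y), t)`: `x.fst.fst = z`,
`x.fst.snd = y` and `x.snd = t`. -/
abbrev Space (m : ℕ) : Type := WithLp 2 (Base m × ℝ)

variable {m : ℕ}

/-- The unit vector `(v, 1)/√(1+|v|²)`. -/
noncomputable def dir (v : Base m) : Space m :=
  (√(1 + ‖v‖ ^ 2))⁻¹ • WithLp.toLp 2 (v, (1:ℝ))

/-- The unit normal `(-2ω, 1)/√(1+4|ω|²)` of the paraboloid at the point `(ω, |ω|²)`. -/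
noncomputable def nor (ω : Base m) : Space m := dir (-(2 : ℝ) • ω)

/-- The box with centre `a`, side `N²` in the direction `u` and sides `N` in the directions `f j`. -/
def box (N : ℝ) (u : Space m) (f : Fin (m + 1) → Space m) (a : Space m) : Set (Space m) :=
  {y | |inner ℝ u (y - a)| ≤ N ^ 2 / 2 ∧ ∀ j, |inner ℝ (f j) (y - a)| ≤ N / 2}

/-- The caps have centres `ω i` in the closed unit ball of `ℝ^(m+1)`, `σ/N`-separated and at least
`κ N^(m+1)` in number, and `f i` is an orthonormal frame of the orthogonal complement of the normal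
at `ω i`. -/
def Caps {ι : Type} [Fintype ι] (σ κ N : ℝ) (ω : ι → Base m) (f : ι → Fin (m + 1) → Space m) :
    Prop :=
  (∀ i, ‖ω i‖ ≤ 1) ∧ (∀ i j, i ≠ j → σ / N ≤ ‖ω i - ω j‖) ∧
    κ * N ^ (m + 1) ≤ (Fintype.card ι : ℝ) ∧
    ∀ i, Orthonormal ℝ (Fin.cons (nor (ω i)) (f i) : Fin (m + 2) → Space m)

/-- The sum of the indicators of the boxes of the caps, with centres `a i`. -/
noncomputable def boxSum {ι : Type} [Fintype ι] (N : ℝ) (ω : ι → Base m)
    (f : ι → Fin (m + 1) → Space m) (a : ι → Space m) (y : Space m) : ℝ :=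
  ∑ i, (box N (nor (ω i)) (f i) (a i)).indicator (fun _ => (1 : ℝ)) y

/-- The inequality of Q1 with constant `C`, for all exponents, for the boxes with centres `a i`. -/
def Ineq {ι : Type} [Fintype ι] (C N : ℝ) (ω : ι → Base m) (f : ι → Fin (m + 1) → Space m)
    (a : ι → Space m) : Prop :=
  ∀ p : ℝ≥0∞, 1 ≤ p → eLpNorm (boxSum N ω f a) p volume ≤
    ENNReal.ofReal C * eLpNorm (boxSum N ω f 0) p volume

/-- The box with normal at `ω` and centre `a` is carried by the family, blown up by `N²`, up to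
`K N`, for a proportion at least `θ` of the points `w` at distance `< r` of `ω`: the normal
`(-2w, 1)/√(1+4|w|²)` is parallel to a plane `Π_s` that passes at distance `≤ K N` of `a`, measured
in the direction of `z`. -/
def Carried (θ r K N : ℝ) (S : Set (Vec m)) (α β γ : Vec m → Vec m) (ω : Base m)
    (a : Space m) : Prop :=
  ENNReal.ofReal θ * volume (ball ω r) ≤ volume {w : Base m | ‖w - ω‖ < r ∧
    ∃ s ∈ S, -(2 : ℝ) • w.fst = β s - (2 * w.snd) • γ s ∧
      ‖N ^ 2 • α s + a.snd • β s + a.fst.snd • γ s - a.fst.fst‖ ≤ K * N}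

/-- The map `b` is of class `C^(k+1)`, and its derivatives of order at most `k + 1` are bounded by
`A` on the unit ball. -/
def SmoothBound (k : ℕ) (A : ℝ) (b : Vec m → Vec m) : Prop :=
  ContDiff ℝ (k + 1 : ℕ) b ∧ ∀ j ≤ k + 1, ∀ s, ‖s‖ ≤ 1 → ‖iteratedFDeriv ℝ j b s‖ ≤ A

/-- **The Kakeya inequality in tube form in `ℝ^n`, `n = m + 2`, for all `p` in `[1, ∞]`, for boxes
carried by a smooth `(n-2)`-parameter family of `2`-planes:**

1. for families of class `C^(k+1)`, with `N ^ (ε + m²/k)`;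
2. for families of class `C^∞`, with `N ^ ε`. -/
theorem result (m : ℕ) (hm : 1 ≤ m) (σ κ : ℝ) (hσ : 0 < σ) (hσ1 : σ ≤ 1) (hκ : 0 < κ)
    (ε : ℝ) (hε : 0 < ε) :
    (∀ k : ℕ, 1 ≤ k → ∃ C : ℝ, 0 < C ∧ ∀ (A K Λ θ : ℝ) (S : Set (Vec m))
      (α β γ : Vec m → Vec m), 0 ≤ A → 0 ≤ K → 0 ≤ Λ → 0 < θ → MeasurableSet S →
      S ⊆ closedBall 0 1 → SmoothBound k A α → SmoothBound k A β → SmoothBound k A γ →
      ∀ N : ℝ, 1 ≤ N → ∀ (ι : Type) [Fintype ι] (ω : ι → Base m)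
        (f : ι → Fin (m + 1) → Space m) (a : ι → Space m), Caps σ κ N ω f →
      (∀ i, |(a i).snd| ≤ Λ * N ^ 2 ∧ |(a i).fst.snd| ≤ Λ * N ^ 2) →
      (∀ i, Carried θ (σ / (4 * N)) K N S α β γ (ω i) (a i)) →
      Ineq (C * (θ ^ (-(1 / ((m : ℝ) + 1) + m / k)) * (1 + K + A + Λ) ^ (4 * m + m ^ 2)) *
        N ^ (ε + (m : ℝ) ^ 2 / k)) N ω f a) ∧
    (∀ (K Λ θ : ℝ) (α β γ : Vec m → Vec m), 0 ≤ K → 0 ≤ Λ → 0 < θ →
      ContDiff ℝ ((⊤ : ℕ∞) : WithTop ℕ∞) α → ContDiff ℝ ((⊤ : ℕ∞) : WithTop ℕ∞) β →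
      ContDiff ℝ ((⊤ : ℕ∞) : WithTop ℕ∞) γ →
      ∃ C : ℝ, 0 < C ∧ ∀ S : Set (Vec m), MeasurableSet S → S ⊆ closedBall 0 1 →
      ∀ N : ℝ, 1 ≤ N → ∀ (ι : Type) [Fintype ι] (ω : ι → Base m)
        (f : ι → Fin (m + 1) → Space m) (a : ι → Space m), Caps σ κ N ω f →
      (∀ i, |(a i).snd| ≤ Λ * N ^ 2 ∧ |(a i).fst.snd| ≤ Λ * N ^ 2) →
      (∀ i, Carried θ (σ / (4 * N)) K N S α β γ (ω i) (a i)) →
      Ineq (C * N ^ ε) N ω f a) := by
  have hm0 : (0 : ℝ) < m := by exact_mod_cast hm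
  have part1 : ∀ ε : ℝ, 0 < ε → ∀ k : ℕ, 1 ≤ k → ∃ C : ℝ, 0 < C ∧ ∀ (A K Λ θ : ℝ)
      (S : Set (Vec m)) (α β γ : Vec m → Vec m), 0 ≤ A → 0 ≤ K → 0 ≤ Λ → 0 < θ →
      MeasurableSet S → S ⊆ closedBall 0 1 → SmoothBound k A α → SmoothBound k A β →
      SmoothBound k A γ → ∀ N : ℝ, 1 ≤ N → ∀ (ι : Type) [Fintype ι] (ω : ι → Base m)
        (f : ι → Fin (m + 1) → Space m) (a : ι → Space m), Caps σ κ N ω f →
      (∀ i, |(a i).snd| ≤ Λ * N ^ 2 ∧ |(a i).fst.snd| ≤ Λ * N ^ 2) →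
      (∀ i, Carried θ (σ / (4 * N)) K N S α β γ (ω i) (a i)) →
      Ineq (C * (θ ^ (-(1 / ((m : ℝ) + 1) + m / k)) * (1 + K + A + Λ) ^ (4 * m + m ^ 2)) *
        N ^ (ε + (m : ℝ) ^ 2 / k)) N ω f a := by
    intro ε hε k hk
    obtain ⟨C, hC0, hC⟩ := Pool.Agent.X160.Tr.smooth_boxes hm hk hε hσ hσ1 hκ
    refine ⟨C, hC0, ?_⟩
    intro A K Λ θ S α β γ hA hK hΛ hθ hS hS1 hα hβ hγ N hN ι _ ω f a hcaps ha hc p hp
    have h1 := hC A K Λ θ S α β γ hA hK hΛ hθ hS hS1 hα hβ hγ N hN ι ω f a hcaps ha hc p hp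
    have hN0 : 0 < N := by linarith
    have e : C * (θ ^ (-(1 / ((m : ℝ) + 1) + m / k)) * (1 + K + A + Λ) ^ (4 * m + m ^ 2) *
        N ^ ((m : ℝ) ^ 2 / k)) * N ^ ε =
        C * (θ ^ (-(1 / ((m : ℝ) + 1) + m / k)) * (1 + K + A + Λ) ^ (4 * m + m ^ 2)) *
        N ^ (ε + (m : ℝ) ^ 2 / k) := by
      rw [Real.rpow_add hN0]
      ring
    rw [e] at h1
    exact h1
  refine ⟨part1 ε hε, ?_⟩
  intro K Λ θ α β γ hK hΛ hθ hα hβ hγ
  obtain ⟨k, hk⟩ := exists_nat_ge (max 1 ((m : ℝ) ^ 2 / (ε / 2)))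
  have hk1 : (1 : ℝ) ≤ k := (le_max_left _ _).trans hk
  have hk1' : 1 ≤ k := by exact_mod_cast hk1
  have hk0 : (0 : ℝ) < k := by linarith
  have hk2 : (m : ℝ) ^ 2 / (ε / 2) ≤ k := (le_max_right _ _).trans hk
  obtain ⟨C, hC0, hC⟩ := part1 (ε / 2) (by positivity) k hk1'
  -- bounds for the derivatives
  have hbd : ∀ b : Vec m → Vec m, ContDiff ℝ ((⊤ : ℕ∞) : WithTop ℕ∞) b → ∃ A : ℝ, 0 ≤ A ∧ SmoothBound k A b := by
    intro b hb
    have hb' : ContDiff ℝ (k + 1 : ℕ) b := hb.of_le (by exact_mod_cast le_top)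
    have h1 : ∀ j : ℕ, ∃ A : ℝ, ∀ s : Vec m, ‖s‖ ≤ 1 → j ≤ k + 1 →
        ‖iteratedFDeriv ℝ j b s‖ ≤ A := by
      intro j
      by_cases hj : j ≤ k + 1
      · have hcont : Continuous (fun s => iteratedFDeriv ℝ j b s) :=
          hb'.continuous_iteratedFDeriv (by exact_mod_cast hj)
        obtain ⟨A, hA⟩ := (isCompact_closedBall (0 : Vec m) 1).exists_bound_of_continuousOn
          hcont.continuousOn
        exact ⟨A, fun s hs _ => hA s (by simpa using hs)⟩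
      · exact ⟨0, fun s _ h => absurd h hj⟩
    choose A hA using h1
    refine ⟨∑ j ∈ Finset.range (k + 2), |A j|, by positivity, hb', ?_⟩
    intro j hj s hs
    refine (hA j s hs hj).trans ((le_abs_self _).trans ?_)
    exact Finset.single_le_sum (f := fun j => |A j|) (fun _ _ => abs_nonneg _)
      (Finset.mem_range.2 (by omega))
  obtain ⟨A₁, hA₁, h₁⟩ := hbd α hα
  obtain ⟨A₂, hA₂, h₂⟩ := hbd β hβ
  obtain ⟨A₃, hA₃, h₃⟩ := hbd γ hγ
  set A : ℝ := A₁ + A₂ + A₃ with hA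
  have hA0 : 0 ≤ A := by positivity
  have hmono : ∀ (b : Vec m → Vec m) (B : ℝ), B ≤ A → SmoothBound k B b → SmoothBound k A b :=
    fun b B hB h => ⟨h.1, fun j hj s hs => (h.2 j hj s hs).trans hB⟩
  set Y : ℝ := θ ^ (-(1 / ((m : ℝ) + 1) + m / k)) * (1 + K + A + Λ) ^ (4 * m + m ^ 2) with hY
  have hY0 : 0 < Y := by positivity
  refine ⟨C * Y, by positivity, ?_⟩
  intro S hS hS1 N hN ι _ ω f a hcaps ha hc p hp
  have h4 := hC A K Λ θ S α β γ hA0 hK hΛ hθ hS hS1 (hmono α A₁ (by linarith) h₁)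
    (hmono β A₂ (by linarith) h₂) (hmono γ A₃ (by linarith) h₃) N hN ι ω f a hcaps ha hc p hp
  refine h4.trans ?_
  gcongr
  rw [div_le_iff₀ (by positivity)] at hk2
  have e3 : (m : ℝ) ^ 2 / k ≤ ε / 2 := by
    rw [div_le_iff₀ hk0]
    linarith
  linarith

end Pool.Agent.Results.MP_ac5134_an.SmoothPlaneTranslates
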