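import Pool.Agent.X160.Tr.Split

set_option autoImplicit false

/-!
# MP_ac5134: the Kakeya inequality in tube form, for all exponents, without any regularity, for boxes
# with planar hairbrushes, and for boxes in the planes of a complex structure or of an involution

Work in `ℝ^n = ℝ^d × ℝ`, `n = d + 1 ≥ 3`, with its Euclidean norm (`Space d`), and let `P` be the
paraboloid `{(ω, |ω|²)}`, `|ω| ≤ 1`.  The box dual to the cap at `ω` is `box N (nor ω) f 0`: its long
side `N²` is in the direction of the unit normal `nor ω = (-2ω, 1)/√(1+4|ω|²)` and its other sides `N`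
are in the directions of an arbitrary orthonormal frame `f` of the orthogonal complement.  The pipe of
the box with centre `a` is the cylinder with the same axis and the same centre, of radius `n N / 2`
and of length `2 n N² / σ` (where the centres of the caps are `σ/N`-separated).

1. (criterion) Suppose that the boxes are ranked and that for every `i` there are a vector `w i` and
  `b` points (centres of focus) such that, whenever the pipe of a box `j` of rank at most that of the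
  box `i` contains a point `x` of the pipe of the box `i`, the normal `nor (ω j)` is at distance at
  most `K N / |x - p|` from the plane spanned by `nor (ω i)` and `w i`, for one of these points `p`.
  Then the conjectured comparison with the centred family holds, for every `p` in `[1, ∞]`, with
  the constant `C K^d N^ε`.
2. This applies to the boxes whose centres lie (up to `K N`) in the planes
  `p + span(nor (ω i), J (nor (ω i)))`, for any complex structure `J` (`J² = -1`) and for any linear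
  involution `J` (`J² = 1`): the box dual to the cap at `ω i` is placed arbitrarily in its plane,
  with no regularity in its dependence on `ω i`.
-/

open MeasureTheory Set Metric
open scoped ENNReal NNReal

namespace Pool.Agent.Results.MP_ac5134_an.SplitPlaneTranslates

/-- Euclidean space `ℝ^d`. -/
abbrev Vec (d : ℕ) : Type := EuclideanSpace ℝ (Fin d)

/-- Euclidean space `ℝ^n`, `n = d + 1`, written as `ℝ^d × ℝ` with the Euclidean norm. -/
abbrev Space (d : ℕ) : Type := WithLp 2 (Vec d × ℝ)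

variable {d : ℕ}

/-- The unit vector `(v, 1)/√(1+|v|²)`. -/
noncomputable def dir (v : Vec d) : Space d :=
  (√(1 + ‖v‖ ^ 2))⁻¹ • WithLp.toLp 2 (v, (1:ℝ))

/-- The unit normal `(-2ω, 1)/√(1+4|ω|²)` of the paraboloid at the point `(ω, |ω|²)`. -/
noncomputable def nor (ω : Vec d) : Space d := dir (-(2 : ℝ) • ω)

/-- The box with centre `a`, side `N²` in the direction `u` and sides `N` in the directions `f j`. -/
def box (N : ℝ) (u : Space d) (f : Fin d → Space d) (a : Space d) : Set (Space d) :=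
  {y | |inner ℝ u (y - a)| ≤ N ^ 2 / 2 ∧ ∀ j, |inner ℝ (f j) (y - a)| ≤ N / 2}

/-- The caps have centres `ω i` in the closed unit ball, `σ/N`-separated and at least `κ N^d` in
number, and `f i` is an orthonormal frame of the orthogonal complement of the normal at `ω i`. -/
def Caps {ι : Type} [Fintype ι] (σ κ N : ℝ) (ω : ι → Vec d) (f : ι → Fin d → Space d) : Prop :=
  (∀ i, ‖ω i‖ ≤ 1) ∧ (∀ i j, i ≠ j → σ / N ≤ ‖ω i - ω j‖) ∧ κ * N ^ d ≤ (Fintype.card ι : ℝ) ∧
    ∀ i, Orthonormal ℝ (Fin.cons (nor (ω i)) (f i) : Fin (d + 1) → Space d)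

/-- The sum of the indicators of the boxes of the caps with centres `a i`. -/
noncomputable def boxSum {ι : Type} [Fintype ι] (N : ℝ) (ω : ι → Vec d)
    (f : ι → Fin d → Space d) (a : ι → Space d) (y : Space d) : ℝ :=
  ∑ i, (box N (nor (ω i)) (f i) (a i)).indicator (fun _ => (1 : ℝ)) y

/-- The inequality of Q1 with constant `C`, for all exponents, for the boxes with centres `a i`. -/
def Ineq {ι : Type} [Fintype ι] (C N : ℝ) (ω : ι → Vec d) (f : ι → Fin d → Space d)
    (a : ι → Space d) : Prop :=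
  ∀ p : ℝ≥0∞, 1 ≤ p → eLpNorm (boxSum N ω f a) p volume ≤
    ENNReal.ofReal C * eLpNorm (boxSum N ω f 0) p volume

/-- The pipe: the cylinder with axis `a + ℝ u`, centre `a`, radius `(d+1) N / 2` and length
`2 (d+1) N² / σ`. -/
def pipe (σ N : ℝ) (u a : Space d) : Set (Space d) :=
  {y | |inner ℝ u (y - a)| ≤ ((d : ℝ) + 1) * N ^ 2 / σ ∧
    ‖(y - a) - (inner ℝ u (y - a) : ℝ) • u‖ ≤ ((d : ℝ) + 1) * N / 2}

/-- The distance of `z` from the point `s u + t v` of the plane spanned by `u` and `v`. -/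
noncomputable def off (z u v : Space d) (s t : ℝ) : ℝ := ‖z - s • u - t • v‖

/-- The hairbrushes are planar, up to the constant `K`: if the pipe of the box number `j`, of rank at
most that of the box number `i`, contains the point `x` of the pipe of the box number `i`, then the
distance of `nor (ω j)` from the plane spanned by `nor (ω i)` and `w i` is at most `K N / |x - p|`
for one of the `b` points `p = P i k`. -/
def PlanarHairbrush {b : ℕ} {ι : Type} (σ K N : ℝ) (ω : ι → Vec d) (a w : ι → Space d)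
    (P : ι → Fin b → Space d) (rank : ι → ℝ) : Prop :=
  ∀ i j, rank j ≤ rank i → ∀ x ∈ pipe σ N (nor (ω i)) (a i) ∩ pipe σ N (nor (ω j)) (a j),
    ∃ k, ∃ s t : ℝ, ‖x - P i k‖ * off (nor (ω j)) (nor (ω i)) (w i) s t ≤ K * N

/-- `J` is a linear complex structure or involution, of norm at most `K`. -/
def Split (K : ℝ) (J : Space d → Space d) : Prop :=
  IsLinearMap ℝ J ∧ (∀ v, ‖J v‖ ≤ K * ‖v‖) ∧ ((∀ v, J (J v) = -v) ∨ (∀ v, J (J v) = v))

/-- The centres `a i` lie, up to `K N`, in the planes `p + span(nor (ω i), J (nor (ω i)))`. -/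
def InPlanes {ι : Type} (K N : ℝ) (J : Space d → Space d) (ω : ι → Vec d) (a : ι → Space d)
    (p : Space d) : Prop :=
  ∀ i, ∃ s t : ℝ, off (a i - p) (nor (ω i)) (J (nor (ω i))) s t ≤ K * N

open Pool.Agent.X160.Tr.Sp in
theorem mem_pipe {σ N : ℝ} (hσ : 0 < σ) (hN : 1 ≤ N) {u a : Space d}
    {z : Pool.Agent.TH705.RR.E (d + 1)}
    (hz : z ∈ Pool.Agent.TH705.RR.tube (σ / (4 * N)) (cc d σ N • phi d a) (phi d u)) :
    (cc d σ N)⁻¹ • (phi d).symm z ∈ pipe σ N u a := by
  have hN0 : 0 < N := by linarith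
  have hc0 : 0 < cc d σ N := by unfold cc; positivity
  set c : ℝ := cc d σ N with hc
  have e0 : z - c • phi d a = phi d (c • (c⁻¹ • (phi d).symm z - a)) := by
    rw [map_smul, map_sub, map_smul, LinearIsometryEquiv.apply_symm_apply, smul_sub, smul_smul,
      mul_inv_cancel₀ hc0.ne', one_smul]
  obtain ⟨h1, h2⟩ := hz
  rw [e0, LinearIsometryEquiv.inner_map_map, real_inner_smul_left, real_inner_comm, abs_mul,
    abs_of_pos hc0] at h1
  rw [e0, LinearIsometryEquiv.inner_map_map, real_inner_smul_left, real_inner_comm] at h2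
  set y : Space d := c⁻¹ • (phi d).symm z - a with hy
  have e1 : phi d (c • y) - (c * inner ℝ u y) • phi d u =
      phi d (c • (y - (inner ℝ u y : ℝ) • u)) := by
    rw [← map_smul, ← map_sub]
    congr 1
    module
  rw [e1, LinearIsometryEquiv.norm_map, norm_smul, Real.norm_of_nonneg hc0.le] at h2
  constructor
  · have h3 : |inner ℝ u y| ≤ 1 / 2 / c := by
      rw [le_div_iff₀ hc0]
      linarith
    refine h3.trans (le_of_eq ?_)
    rw [hc]
    unfold cc
    field_simp
    ring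
  · have h3 : ‖y - (inner ℝ u y : ℝ) • u‖ ≤ σ / (4 * N) / c := by
      rw [le_div_iff₀ hc0]
      linarith
    refine h3.trans (le_of_eq ?_)
    rw [hc]
    unfold cc
    field_simp
    ring

/-- **The Kakeya inequality in tube form in `ℝ^n`, `n = d + 1 ≥ 3`, for all `p` in `[1, ∞]`:**

1. for boxes with planar hairbrushes;
2. for boxes placed arbitrarily in the planes `p + span(nor (ω i), J (nor (ω i)))`, `J² = ±1`. -/
theorem result (d : ℕ) (hd : 2 ≤ d) (σ κ ε : ℝ) (hσ : 0 < σ) (hσ1 : σ ≤ 1) (hκ : 0 < κ)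
    (hε : 0 < ε) :
    (∀ b : ℕ, ∃ C : ℝ, 0 < C ∧ ∀ (K N : ℝ), 1 ≤ K → 1 ≤ N → ∀ (ι : Type) [Fintype ι]
      (ω : ι → Vec d) (f : ι → Fin d → Space d) (a w : ι → Space d) (P : ι → Fin b → Space d)
      (rank : ι → ℝ), Caps σ κ N ω f → PlanarHairbrush σ K N ω a w P rank →
      Ineq (C * K ^ d * N ^ ε) N ω f a) ∧
    (∃ C : ℝ, 0 < C ∧ ∀ (K N : ℝ), 1 ≤ K → 1 ≤ N → ∀ (J : Space d → Space d), Split K J →
      ∀ (ι : Type) [Fintype ι] (ω : ι → Vec d) (f : ι → Fin d → Space d) (a : ι → Space d)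
      (p : Space d), Caps σ κ N ω f → InPlanes K N J ω a p →
      Ineq (C * K ^ (3 * d) * N ^ ε) N ω f a) := by
  have hd1 : 1 ≤ d := by omega
  have hdr : (2 : ℝ) ≤ d := by exact_mod_cast hd
  have hd0 : (0 : ℝ) < d := by linarith
  obtain ⟨hq1, hqc, -⟩ := Pool.Agent.X160.Tr.Sp.qd_facts hd1 hε
  set q : ℝ := Pool.Agent.X160.Tr.Sp.qd d ε with hq
  have hq0 : 0 < q := by linarith
  have hqn : ((d + 1 : ℕ) : ℝ) / (((d + 1 : ℕ) : ℝ) - 1) < q := by
    push_cast
    rwa [add_sub_cancel_right]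
  -- facts on the scaled family
  have hδ : ∀ N : ℝ, 1 ≤ N → 0 < σ / (4 * N) ∧ σ / (4 * N) < 1 := by
    intro N hN
    have hN0 : 0 < N := by linarith
    refine ⟨by positivity, ?_⟩
    rw [div_lt_one (by positivity)]
    linarith
  have hunit : ∀ ω : Vec d, ‖Pool.Agent.X160.Tr.Sp.phi d (nor ω)‖ = 1 := by
    intro ω
    rw [LinearIsometryEquiv.norm_map]
    exact Pool.Agent.H810R3.Tub.norm_dir _
  have hsep : ∀ N : ℝ, 1 ≤ N → ∀ (ι : Type) [Fintype ι] (ω : ι → Vec d)
      (f : ι → Fin d → Space d), Caps σ κ N ω f → ∀ i j, i ≠ j → σ / (4 * N) ≤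
      ‖Pool.Agent.X160.Tr.Sp.phi d (nor (ω i)) - Pool.Agent.X160.Tr.Sp.phi d (nor (ω j))‖ := by
    intro N hN ι _ ω f hc i j hij
    rw [← map_sub, LinearIsometryEquiv.norm_map]
    have h1 := hc.2.1 i j hij
    have h2 : ‖ω i - ω j‖ ≤ 4 * ‖nor (ω i) - nor (ω j)‖ :=
      Pool.Agent.X160.Tr.Sp.nor_sep (hc.1 i) (hc.1 j)
    have h3 : σ / (4 * N) = σ / N / 4 := by
      rw [div_div, mul_comm]
    rw [h3]
    linarith
  have hcN : ∀ K N : ℝ, 1 ≤ K → 1 ≤ N →
      Pool.Agent.X160.Tr.Sp.cc d σ N * (K * N) ≤ K * (σ / (4 * N)) := by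
    intro K N hK hN
    have hN0 : 0 < N := by linarith
    have e : Pool.Agent.X160.Tr.Sp.cc d σ N * (K * N) =
        K * (σ / (4 * N)) * (2 / (1 + d)) := by
      unfold Pool.Agent.X160.Tr.Sp.cc
      field_simp
      norm_num
    rw [e]
    have h1 : 2 / (1 + (d : ℝ)) ≤ 1 := by
      rw [div_le_one (by positivity)]
      linarith
    calc K * (σ / (4 * N)) * (2 / (1 + d)) ≤ K * (σ / (4 * N)) * 1 := by gcongr
      _ = _ := mul_one _
  refine ⟨?_, ?_⟩
  · intro b
    obtain ⟨A₀, hA₀, hA⟩ := Pool.Agent.X160.Pl.planar (n := d + 1) (by omega) hqn b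
    obtain ⟨C, hC0, hC⟩ := Pool.Agent.X160.Tr.Sp.push hd hε hσ hσ1 hκ hA₀
    refine ⟨C, hC0, ?_⟩
    intro K N hK hN ι _ ω f a w P rank hc hP p hp
    have hN0 : 0 < N := by linarith
    have hc0 : 0 < Pool.Agent.X160.Tr.Sp.cc d σ N := by
      unfold Pool.Agent.X160.Tr.Sp.cc; positivity
    refine hC N K hN hK ι ω f a hc.2.2.1 hc.2.2.2 ?_ p hp
    have h1 := hA K hK (σ / (4 * N)) (hδ N hN).1 (hδ N hN).2 ι
      (fun i => Pool.Agent.X160.Tr.Sp.cc d σ N • Pool.Agent.X160.Tr.Sp.phi d (a i))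
      (fun i => Pool.Agent.X160.Tr.Sp.phi d (nor (ω i)))
      (fun i => Pool.Agent.X160.Tr.Sp.phi d (w i))
      (fun i k => Pool.Agent.X160.Tr.Sp.cc d σ N • Pool.Agent.X160.Tr.Sp.phi d (P i k)) rank
      (fun i => hunit (ω i)) (hsep N hN ι ω f hc) (by
        intro i j hij z hz
        obtain ⟨k, s, t, hst⟩ := hP i j hij _ ⟨mem_pipe hσ hN hz.1, mem_pipe hσ hN hz.2⟩
        refine ⟨k, s, t, ?_⟩
        unfold off at hst
        have e1 : z - Pool.Agent.X160.Tr.Sp.cc d σ N • Pool.Agent.X160.Tr.Sp.phi d (P i k) =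
            Pool.Agent.X160.Tr.Sp.phi d (Pool.Agent.X160.Tr.Sp.cc d σ N •
              ((Pool.Agent.X160.Tr.Sp.cc d σ N)⁻¹ • (Pool.Agent.X160.Tr.Sp.phi d).symm z -
                P i k)) := by
          rw [map_smul, map_sub, map_smul, LinearIsometryEquiv.apply_symm_apply, smul_sub,
            smul_smul, mul_inv_cancel₀ hc0.ne', one_smul]
        have e2 : Pool.Agent.X160.Tr.Sp.phi d (nor (ω j)) -
            s • Pool.Agent.X160.Tr.Sp.phi d (nor (ω i)) - t • Pool.Agent.X160.Tr.Sp.phi d (w i) =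
            Pool.Agent.X160.Tr.Sp.phi d (nor (ω j) - s • nor (ω i) - t • w i) := by
          rw [map_sub, map_sub, map_smul, map_smul]
        rw [e1, e2, LinearIsometryEquiv.norm_map, LinearIsometryEquiv.norm_map, norm_smul,
          Real.norm_of_nonneg hc0.le, mul_assoc]
        exact (mul_le_mul_of_nonneg_left hst hc0.le).trans (hcN K N hK hN))
    have e3 : ((d + 1 : ℕ) : ℝ) - 1 = d := by push_cast; ring
    rwa [e3] at h1
  · obtain ⟨C1, hC1, h1⟩ := Pool.Agent.X160.Pl.fam_c (n := d + 1) (by omega) hqn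
    obtain ⟨C2, hC2, h2⟩ := Pool.Agent.X160.Pl.fam_r (n := d + 1) (by omega) hqn
    have hA₀ : 0 < C1 + C2 := by positivity
    obtain ⟨C, hC0, hC⟩ := Pool.Agent.X160.Tr.Sp.push hd hε hσ hσ1 hκ hA₀
    refine ⟨C, hC0, ?_⟩
    intro K N hK hN J₀ ⟨hJl, hJn, hJ⟩ ι _ ω f a p₀ hc ha p hp
    obtain ⟨J, rfl⟩ : ∃ J : Space d →ₗ[ℝ] Space d, ⇑J = J₀ := ⟨hJl.mk' J₀, rfl⟩
    have hN0 : 0 < N := by linarith
    have hK0 : 0 < K := by linarith
    have hc0 : 0 < Pool.Agent.X160.Tr.Sp.cc d σ N := by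
      unfold Pool.Agent.X160.Tr.Sp.cc; positivity
    have hK3 : 1 ≤ K ^ 3 := one_le_pow₀ hK
    have e3 : ((d + 1 : ℕ) : ℝ) - 1 = d := by push_cast; ring
    rw [pow_mul K 3 d]
    refine hC N (K ^ 3) hN hK3 ι ω f a hc.2.2.1 hc.2.2.2 ?_ p hp
    have eK : (K ^ 3) ^ ((d : ℝ) / q) = K ^ (3 * ((((d + 1 : ℕ) : ℝ) - 1) / q)) := by
      rw [e3, ← Real.rpow_natCast K 3, ← Real.rpow_mul hK0.le]
      norm_num
    rw [← hq, eK]
    set J' : Pool.Agent.TH705.RR.E (d + 1) →ₗ[ℝ] Pool.Agent.TH705.RR.E (d + 1) :=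
      (Pool.Agent.X160.Tr.Sp.phi d).toLinearEquiv.toLinearMap ∘ₗ J ∘ₗ
        (Pool.Agent.X160.Tr.Sp.phi d).symm.toLinearEquiv.toLinearMap with hJ'
    have hJ'a : ∀ v, J' v = Pool.Agent.X160.Tr.Sp.phi d (J ((Pool.Agent.X160.Tr.Sp.phi d).symm v)) :=
      fun v => rfl
    have hJ'n : ∀ v, ‖J' v‖ ≤ K * ‖v‖ := by
      intro v
      rw [hJ'a, LinearIsometryEquiv.norm_map]
      refine (hJn _).trans ?_
      rw [LinearIsometryEquiv.norm_map]
    have hpos : ∀ i, ∃ s t : ℝ,
        ‖Pool.Agent.X160.Tr.Sp.cc d σ N • Pool.Agent.X160.Tr.Sp.phi d (a i) -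
          Pool.Agent.X160.Tr.Sp.cc d σ N • Pool.Agent.X160.Tr.Sp.phi d p₀ -
          s • Pool.Agent.X160.Tr.Sp.phi d (nor (ω i)) -
          t • J' (Pool.Agent.X160.Tr.Sp.phi d (nor (ω i)))‖ ≤ K * (σ / (4 * N)) := by
      intro i
      obtain ⟨s, t, hst⟩ := ha i
      unfold off at hst
      refine ⟨Pool.Agent.X160.Tr.Sp.cc d σ N * s, Pool.Agent.X160.Tr.Sp.cc d σ N * t, ?_⟩
      have e1 : Pool.Agent.X160.Tr.Sp.cc d σ N • Pool.Agent.X160.Tr.Sp.phi d (a i) -
          Pool.Agent.X160.Tr.Sp.cc d σ N • Pool.Agent.X160.Tr.Sp.phi d p₀ -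
          (Pool.Agent.X160.Tr.Sp.cc d σ N * s) • Pool.Agent.X160.Tr.Sp.phi d (nor (ω i)) -
          (Pool.Agent.X160.Tr.Sp.cc d σ N * t) • J' (Pool.Agent.X160.Tr.Sp.phi d (nor (ω i))) =
          Pool.Agent.X160.Tr.Sp.phi d (Pool.Agent.X160.Tr.Sp.cc d σ N •
            (a i - p₀ - s • nor (ω i) - t • J (nor (ω i)))) := by
        rw [hJ'a, LinearIsometryEquiv.symm_apply_apply]
        simp only [map_smul, map_sub]
        module
      rw [e1, LinearIsometryEquiv.norm_map, norm_smul, Real.norm_of_nonneg hc0.le]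
      exact (mul_le_mul_of_nonneg_left hst hc0.le).trans (hcN K N hK hN)
    have hKp : 0 ≤ K ^ (3 * ((((d + 1 : ℕ) : ℝ) - 1) / q)) := by positivity
    rcases hJ with hJ | hJ
    · have hJ2 : ∀ v, J' (J' v) = -v := by
        intro v
        rw [hJ'a, hJ'a, LinearIsometryEquiv.symm_apply_apply, hJ, map_neg,
          LinearIsometryEquiv.apply_symm_apply]
      have h3 := h1 K hK J' hJ'n hJ2 (σ / (4 * N)) (hδ N hN).1 (hδ N hN).2 ι
        (fun i => Pool.Agent.X160.Tr.Sp.cc d σ N • Pool.Agent.X160.Tr.Sp.phi d (a i))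
        (fun i => Pool.Agent.X160.Tr.Sp.phi d (nor (ω i)))
        (Pool.Agent.X160.Tr.Sp.cc d σ N • Pool.Agent.X160.Tr.Sp.phi d p₀)
        (fun i => hunit (ω i)) (hsep N hN ι ω f hc) hpos
      exact Pool.Agent.X160.Pl.KB_mono (hδ N hN).1
        (mul_le_mul_of_nonneg_right (by linarith) hKp) h3
    · have hJ2 : ∀ v, J' (J' v) = v := by
        intro v
        rw [hJ'a, hJ'a, LinearIsometryEquiv.symm_apply_apply, hJ,
          LinearIsometryEquiv.apply_symm_apply]
      have h3 := h2 K hK J' hJ'n hJ2 (σ / (4 * N)) (hδ N hN).1 (hδ N hN).2 ι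
        (fun i => Pool.Agent.X160.Tr.Sp.cc d σ N • Pool.Agent.X160.Tr.Sp.phi d (a i))
        (fun i => Pool.Agent.X160.Tr.Sp.phi d (nor (ω i)))
        (Pool.Agent.X160.Tr.Sp.cc d σ N • Pool.Agent.X160.Tr.Sp.phi d p₀)
        (fun i => hunit (ω i)) (hsep N hN ι ω f hc) hpos
      exact Pool.Agent.X160.Pl.KB_mono (hδ N hN).1
        (mul_le_mul_of_nonneg_right (by linarith) hKp) h3

end Pool.Agent.Results.MP_ac5134_an.SplitPlaneTranslates
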