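import Pool.Agent.X91.TT.Final

set_option autoImplicit false

/-!
# MP_ac5134: translates given by a typical continuous function of the cap

Work in `ℝ^n = ℝ^d × ℝ`, `n = d + 1 ≥ 2`, with its Euclidean norm (`Space d`), and let `P` be the
paraboloid `{(ω, |ω|²)}`, `|ω| ≤ 1`.  The box dual to the cap at `ω` is `box N (nor ω) f 0`: its long
side `N²` is in the direction of the unit normal `nor ω = (-2ω, 1)/√(1+4|ω|²)` and its other sides `N`
are in the directions of an arbitrary orthonormal frame `f` of the orthogonal complement.  The space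
`Fam d` of the continuous maps `b` from the closed unit ball of `ℝ^d` to `ℝ^n` carries the supremum
metric; such a map gives, for all scales `N` and all systems of caps at once, the translates with the
centres `N² b(ω i)`.  Typical means: for all `b` in a comeagre set.

1. **Zero-one law.**  Let `Φ` be any function and `P` any set of finite exponents.  Either the Kakeya
  inequality in tube form with a constant `C Φ(N)` holds for *all* translates and all `p ∈ P` (with
  one `C`), or it fails, for every constant `C`, for the typical `b`.  In particular it holds with one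
  constant for all translates as soon as each `b` has its own constant.
2. **Universality.**  For the typical `b` and for every `s ≥ 0`: the inequality holds with the losses
  `N^(s+ε)`, for all `ε > 0` and all `p ∈ [1, ∞]`, for this single `b` if and only if it does for all
  translates.  For `s = 0` the second statement is the conjecture in dimension `n`.
3. **Good scales.**  Let `h(N) → ∞` be arbitrarily slow.  For the typical `b` there are arbitrarily
  large `N` for which the inequality holds with the constant `h(N)`, for all systems of caps and all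
  `p ∈ [1, ∞]`.
-/

open MeasureTheory Set Filter Topology ENNReal

namespace Pool.Agent.Results.MP_ac5134_an.TypicalTranslates

open Pool.Agent.H810R3.Tub Pool.Agent.X91.TT

/-- The inequality with the constant `C N^s`, for all `N`, all systems of caps, all translates and
all `p` in `[1, ∞]`. -/
def AllTranslates (d : ℕ) (σ κ s : ℝ) : Prop :=
  ∃ C : ℝ, 0 < C ∧ ∀ N : ℝ, 1 ≤ N → ∀ (ι : Type) [Fintype ι] (ω : ι → Vec d)
    (f : ι → Fin d → Space d), Caps σ κ N ω f → ∀ (a : ι → Space d) (p : ℝ≥0∞), 1 ≤ p →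
      Ineq (C * N ^ s) N p ω f a

/-- The inequality with the constant `C N^s`, for all `N`, all systems of caps and all `p` in
`[1, ∞]`, for the translates with the centres `N² b(ω i)`. -/
def OneFamily {d : ℕ} (σ κ s : ℝ) (b : Fam d) : Prop :=
  ∃ C : ℝ, 0 < C ∧ ∀ N : ℝ, 1 ≤ N → ∀ (ι : Type) [Fintype ι] (ω : ι → Vec d)
    (f : ι → Fin d → Space d), Caps σ κ N ω f → ∀ p : ℝ≥0∞, 1 ≤ p →
      Ineq (C * N ^ s) N p ω f (pos N b ω)

theorem max_le {C N s : ℝ} (hC : 0 < C) (hN : 1 ≤ N) (hs : 0 ≤ s) :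
    1 ≤ max C 1 * N ^ s ∧ C * N ^ s ≤ max C 1 * N ^ s := by
  have h1 : 1 ≤ N ^ s := Real.one_le_rpow hN hs
  constructor
  · calc (1 : ℝ) = 1 * 1 := (one_mul 1).symm
      _ ≤ max C 1 * N ^ s := by
          apply mul_le_mul (le_max_right _ _) h1 zero_le_one (by positivity)
  · gcongr
    exact le_max_left _ _

theorem all_iff {d : ℕ} {σ κ s : ℝ} (hs : 0 ≤ s) :
    AllTranslates d σ κ s ↔ Uniform d σ κ (pw s) (Ici 1) := by
  constructor
  · rintro ⟨C, hC, h⟩
    refine ⟨C, hC, fun N hN ι _ ω f hc a p hp => h N hN ι ω f hc a _ ?_⟩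
    rw [← ENNReal.ofReal_one]
    exact ENNReal.ofReal_le_ofReal hp
  · rintro ⟨C, hC, h⟩
    refine ⟨max C 1, by positivity, fun N hN ι _ ω f hc a p hp => ?_⟩
    obtain ⟨h1, h2⟩ := max_le hC hN hs
    rcases eq_or_ne p ∞ with rfl | hpt
    · exact ineq_top hN h1 hc.2.2.2 _
    · have hp' : 1 ≤ p.toReal := by
        rw [← ENNReal.toReal_one]
        exact ENNReal.toReal_mono hpt hp
      have h3 := h N hN ι ω f hc a p.toReal hp'
      rw [ENNReal.ofReal_toReal hpt] at h3
      exact h3.mono h2

theorem one_iff {d : ℕ} {σ κ s : ℝ} (hs : 0 ≤ s) (b : Fam d) :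
    OneFamily σ κ s b ↔ BoundFor σ κ (pw s) (Ici 1) b := by
  constructor
  · rintro ⟨C, hC, h⟩
    refine ⟨C, hC, fun N hN ι _ ω f hc p hp => h N hN ι ω f hc _ ?_⟩
    rw [← ENNReal.ofReal_one]
    exact ENNReal.ofReal_le_ofReal hp
  · rintro ⟨C, hC, h⟩
    refine ⟨max C 1, by positivity, fun N hN ι _ ω f hc p hp => ?_⟩
    obtain ⟨h1, h2⟩ := max_le hC hN hs
    rcases eq_or_ne p ∞ with rfl | hpt
    · exact ineq_top hN h1 hc.2.2.2 _
    · have hp' : 1 ≤ p.toReal := by
        rw [← ENNReal.toReal_one]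
        exact ENNReal.toReal_mono hpt hp
      have h3 := h N hN ι ω f hc p.toReal hp'
      rw [ENNReal.ofReal_toReal hpt] at h3
      exact h3.mono h2

/-- **Zero-one law, universality and good scales for typical continuous translates.** -/
theorem result (d : ℕ) (hd : 1 ≤ d) (σ κ : ℝ) (hσ : 0 < σ) (hκ : 0 < κ) :
    (∀ (Φ : ℝ → ℝ) (P : Set ℝ), (∀ p ∈ P, 1 ≤ p) →
      (Uniform d σ κ Φ P ↔ ∀ b : Fam d, BoundFor σ κ Φ P b) ∧
      (¬ Uniform d σ κ Φ P → ∀ᶠ b in residual (Fam d), ¬ BoundFor σ κ Φ P b)) ∧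
    (∀ᶠ b in residual (Fam d), ∀ s : ℝ, 0 ≤ s →
      ((∀ ε : ℝ, 0 < ε → OneFamily σ κ (s + ε) b) ↔
        ∀ ε : ℝ, 0 < ε → AllTranslates d σ κ (s + ε))) ∧
    (∀ h : ℝ → ℝ, Tendsto h atTop atTop → ∀ᶠ b in residual (Fam d),
      ∃ᶠ N in atTop, GoodAt σ κ (h N) N b) := by
  refine ⟨fun Φ P hP => law hσ hP, ?_, fun h hh => good_scales hd hσ hκ hh⟩
  filter_upwards [powers (d := d) (κ := κ) hσ (P := Ici 1) (fun p hp => hp)] with b hb s hs
  have h1 : (∀ ε : ℝ, 0 < ε → OneFamily σ κ (s + ε) b) ↔
      ∀ ε : ℝ, 0 < ε → BoundFor σ κ (pw (s + ε)) (Ici 1) b :=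
    forall₂_congr fun ε hε => one_iff (by linarith) b
  have h2 : (∀ ε : ℝ, 0 < ε → AllTranslates d σ κ (s + ε)) ↔
      ∀ ε : ℝ, 0 < ε → Uniform d σ κ (pw (s + ε)) (Ici 1) :=
    forall₂_congr fun ε hε => all_iff (by linarith)
  rw [h1, h2]
  exact hb s

end Pool.Agent.Results.MP_ac5134_an.TypicalTranslates
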